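import Mathlib

namespace Pool.Agent.Results.MP_dff590_al.FreePos

open Filter

/-- The ball of radius `n` for the word length with respect to `X ∪ X⁻¹`. -/
def ball {G : Type} [Group G] (X : Finset G) (n : ℕ) : Set G :=
  {g | ∃ l : List G, l.length ≤ n ∧ (∀ x ∈ l, x ∈ X ∨ x⁻¹ ∈ X) ∧ l.prod = g}

/-- The `φ`-conjugacy class of `y`. -/
def cls {G : Type} [Group G] (φ : G →* G) (y : G) : Set G := {x | ∃ z, x = z * y * (φ z)⁻¹}

/-- The `φ`-twisted conjugacy ratio. -/
noncomputable def tcr {G : Type} [Group G] (X : Finset G) (φ : G →* G) : ℝ :=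
  limsup (fun n : ℕ => ((cls φ '' ball X n).ncard : ℝ) / (ball X n).ncard) atTop

open FreeGroup hiding map_mul map_inv map_one IsReduced norm

abbrev F := FreeGroup Bool
abbrev L := List (Bool × Bool)

/-- fourth powers -/
def ψ : F →* F := FreeGroup.lift fun x => of x ^ 4

def ex (l : L) : L := l.flatMap fun a => [a, a, a, a]

lemma mk_single (a : Bool × Bool) : (mk [a] : F) = if a.2 then of a.1 else (of a.1)⁻¹ := by
  obtain ⟨x, b⟩ := a
  cases b
  · simp [of, inv_mk, invRev]
  · rfl

lemma psi_mk (l : L) : ψ (mk l) = mk (ex l) := by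
  induction l with
  | nil => exact map_one ψ
  | cons a l ih =>
    have e1 : (mk (a :: l) : F) = mk [a] * mk l := by rw [mul_mk]; rfl
    have e2 : (mk (ex (a :: l)) : F) = mk [a] * mk [a] * mk [a] * mk [a] * mk (ex l) := by
      simp only [mul_mk]; rfl
    rw [e1, e2, map_mul, ih, mk_single]
    congr 1
    split_ifs <;> simp [ψ, pow_succ, mul_assoc]

lemma ex_red : ∀ l : L, FreeGroup.IsReduced l → FreeGroup.IsReduced (ex l)
  | [], _ => FreeGroup.IsReduced.nil
  | [a], _ => by simp [ex, FreeGroup.IsReduced]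
  | a :: b :: l, h => by
    have h1 := isReduced_cons_cons.1 h
    have h2 := ex_red (b :: l) h1.2
    change FreeGroup.IsReduced (a :: a :: a :: a :: b :: b :: b :: b :: ex l)
    change FreeGroup.IsReduced (b :: b :: b :: b :: ex l) at h2
    simp only [isReduced_cons_cons] at h2 ⊢
    exact ⟨fun _ => trivial, fun _ => trivial, fun _ => trivial, h1.1, h2⟩

lemma ex_len (l : L) : (ex l).length = 4 * l.length := by
  induction l with
  | nil => rfl
  | cons a l ih => simp [ex] at ih ⊢; omega

lemma norm_red {l : L} (h : FreeGroup.IsReduced l) : FreeGroup.norm (mk l) = l.length := by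
  rw [FreeGroup.norm, toWord_mk, h.reduce_eq]

lemma red_app {l m : L} (hl : FreeGroup.IsReduced l) (hm : FreeGroup.IsReduced m)
    (h : ∀ a ∈ l.getLast?, ∀ b ∈ m.head?, a.1 = b.1 → a.2 = b.2) : FreeGroup.IsReduced (l ++ m) :=
  List.IsChain.append hl hm h

/-- next letter -/
def nxt (w : L) (i : Bool) : Bool × Bool := (!(w.getLast?.getD (true, true)).1, i)

def e (g : F) (i : Bool) : F := mk (g.toWord ++ [nxt g.toWord i])

lemma nxt_ne (w : L) (i : Bool) : ∀ a ∈ w.getLast?, a.1 ≠ (nxt w i).1 := by
  intro a ha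
  simp [nxt, Option.mem_def.1 ha]

lemma e_red (g : F) (i : Bool) : FreeGroup.IsReduced (g.toWord ++ [nxt g.toWord i]) :=
  red_app isReduced_toWord FreeGroup.IsReduced.singleton fun a ha b hb h => by
    simp at hb; subst hb; exact absurd h (nxt_ne _ _ a ha)

lemma e_norm (g : F) (i : Bool) : FreeGroup.norm (e g i) = FreeGroup.norm g + 1 := by
  rw [e, norm_red (e_red g i)]; simp [FreeGroup.norm]

lemma e_inj {g h : F} {i j : Bool} (H : e g i = e h j) : g = h ∧ i = j := by
  have h1 := congrArg toWord H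
  rw [e, e, toWord_mk, toWord_mk, (e_red g i).reduce_eq, (e_red h j).reduce_eq] at h1
  have h2 := List.append_inj' h1 rfl
  refine ⟨toWord_injective h2.1, ?_⟩
  have := h2.2
  simp [nxt] at this
  exact this.2

lemma expand (g : F) (i : Bool) (z : F) :
    FreeGroup.norm (e g i) + 4 * FreeGroup.norm z ≤ FreeGroup.norm (e g i * ψ z) + 2 := by
  have hz : FreeGroup.IsReduced (ex z.toWord) := ex_red _ isReduced_toWord
  have hl : (ex z.toWord).length = 4 * FreeGroup.norm z := ex_len _
  have e1 : ψ z = mk (ex z.toWord) := by rw [← psi_mk, mk_toWord]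
  rw [e1, ← hl, e_norm]
  generalize z.toWord = l at hz
  cases l with
  | nil => show _ ≤ FreeGroup.norm (e g i * 1) + 2; rw [mul_one, e_norm]; simp [ex]
  | cons a l =>
    change FreeGroup.IsReduced (a :: a :: a :: a :: ex l) at hz
    change _ + (a :: a :: a :: a :: ex l).length ≤ FreeGroup.norm (e g i * mk (a :: a :: a :: a :: ex l)) + 2
    set q := nxt g.toWord i with hq
    by_cases h : q.1 = a.1 → q.2 = a.2
    · rw [e, mul_mk, norm_red]
      · simp [FreeGroup.norm]; omega
      · refine red_app (e_red g i) hz fun x hx y hy => ?_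
        simp at hx hy; subst hx hy; exact h
    · push Not at h
      have e2 : e g i * mk (a :: a :: a :: a :: ex l) = mk (g.toWord ++ (a :: a :: a :: ex l)) := by
        have e3 : (mk [q] : F) * mk [a] = 1 := by
          rw [mk_single, mk_single, h.1]
          have := h.2
          revert this
          cases q.2 <;> cases a.2 <;> simp
        have e4 : (mk (a :: a :: a :: a :: ex l) : F) = mk [a] * mk (a :: a :: a :: ex l) := by
          rw [mul_mk]; rfl
        rw [e, ← hq, ← mul_mk, ← mul_mk, e4, mul_assoc, ← mul_assoc (mk [q]), e3, one_mul]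
      rw [e2, norm_red]
      · simp [FreeGroup.norm]; omega
      · refine red_app isReduced_toWord (isReduced_cons_cons.1 hz).2 fun x hx y hy hxy => ?_
        simp at hy; subst hy
        exact absurd (hxy.trans h.1.symm) (nxt_ne _ _ x hx)

lemma sep {g h z : F} (H : e h true = z * e g true * (ψ z)⁻¹) : g = h := by
  have h1 := expand h true z
  have h2 := expand g true z⁻¹
  have e1 : e h true * ψ z = z * e g true := by rw [H]; group
  have e2 : e g true * ψ z⁻¹ = z⁻¹ * e h true := by rw [H, map_inv]; group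
  rw [e1] at h1; rw [e2] at h2
  have h3 := norm_mul_le z (e g true)
  have h4 := norm_mul_le z⁻¹ (e h true)
  rw [norm_inv_eq] at h2 h4
  have h5 : z = 1 := norm_eq_zero.1 (by omega)
  subst h5
  simp at H
  exact (e_inj H).1.symm

def B (n : ℕ) : Set F := {g | FreeGroup.norm g ≤ n}

lemma B_fin (n : ℕ) : (B n).Finite :=
  ((List.finite_length_le (Bool × Bool) n).image mk).subset fun g hg => ⟨g.toWord, hg, mk_toWord⟩

lemma B_pos (n : ℕ) : 0 < (B n).ncard :=
  (Set.ncard_pos (B_fin n)).2 ⟨1, by simp [B]⟩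

lemma B_two (n : ℕ) : 2 * (B n).ncard ≤ (B (n + 1)).ncard := by
  have h := Set.ncard_le_ncard_of_injOn (s := B n ×ˢ (Set.univ : Set Bool)) (t := B (n + 1))
    (fun p => e p.1 p.2) (fun p hp => by
      have : FreeGroup.norm p.1 ≤ n := hp.1
      show FreeGroup.norm _ ≤ _
      rw [e_norm]; omega)
    (fun p _ q _ h => Prod.ext (e_inj h).1 (e_inj h).2) (B_fin _)
  rw [Set.ncard_prod] at h
  simpa [mul_comm] using h

lemma B_five (n : ℕ) : (B (n + 1)).ncard ≤ 5 * (B n).ncard := by
  have h : B (n + 1) ⊆ (fun p : F × Option (Bool × Bool) => p.1 * mk p.2.toList) ''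
      (B n ×ˢ Set.univ) := by
    intro g hg
    have h1 : g.toWord.length ≤ n + 1 := hg
    rcases List.eq_nil_or_concat g.toWord with h2 | ⟨l, a, h2⟩
    · exact ⟨(1, none), ⟨by simp [B], trivial⟩, by
        rw [toWord_eq_nil_iff.1 h2]; exact mul_one _⟩
    · refine ⟨(mk l, some a), ⟨norm_mk_le.trans ?_, trivial⟩, ?_⟩
      · rw [h2] at h1; simpa using h1
      · show mk l * mk [a] = g
        rw [mul_mk, ← List.concat_eq_append, ← h2, mk_toWord]
  have h2 := (Set.ncard_le_ncard h (((B_fin n).prod Set.finite_univ).image _)).trans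
    (Set.ncard_image_le ((B_fin n).prod Set.finite_univ))
  rw [Set.ncard_prod] at h2
  simpa [mul_comm] using h2

def X : Finset F := {of true, of false}

lemma mk_prod (l : L) : (l.map fun a => (mk [a] : F)).prod = mk l := by
  induction l with
  | nil => rfl
  | cons a l ih => rw [List.map_cons, List.prod_cons, ih, mul_mk]; rfl

lemma gen_X (a : Bool × Bool) : (mk [a] : F) ∈ X ∨ (mk [a] : F)⁻¹ ∈ X := by
  rw [mk_single]
  obtain ⟨x, b⟩ := a
  cases x <;> cases b <;> simp [X]

lemma ballX (n : ℕ) : ball X n = B n := by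
  ext g
  constructor
  · rintro ⟨l, h1, h2, rfl⟩
    refine le_trans ?_ h1
    clear h1
    induction l with
    | nil => simp
    | cons a l ih =>
      have h3 := norm_mul_le a l.prod
      have h4 : FreeGroup.norm a ≤ 1 := by
        have h0 : ∀ x ∈ X, FreeGroup.norm x ≤ 1 := by
          intro x hx
          simp only [X, Finset.mem_insert, Finset.mem_singleton] at hx
          rcases hx with rfl | rfl <;> simp
        exact (h2 a (by simp)).elim (h0 a) fun h => by simpa using h0 _ h
      have := ih fun x hx => h2 x (by simp [hx])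
      simp; omega
  · intro hg
    exact ⟨g.toWord.map fun a => (mk [a] : F), by rw [List.length_map]; exact hg, fun x hx => by
      obtain ⟨a, _, rfl⟩ := List.mem_map.1 hx
      exact gen_X a, by rw [mk_prod, mk_toWord]⟩

lemma C_ge (n : ℕ) : (B n).ncard ≤ (cls ψ '' B (n + 1)).ncard := by
  refine Set.ncard_le_ncard_of_injOn (fun g => cls ψ (e g true)) (fun g hg => ⟨_, ?_, rfl⟩)
    (fun g _ h _ H => ?_) ((B_fin _).image _)
  · have : FreeGroup.norm g ≤ n := hg
    show FreeGroup.norm _ ≤ _
    rw [e_norm]; omega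
  · have h1 : e h true ∈ cls ψ (e g true) := by
      have : cls ψ (e g true) = cls ψ (e h true) := H
      rw [this]; exact ⟨1, by simp⟩
    obtain ⟨z, hz⟩ := h1
    exact sep hz

theorem result : ∃ (φ : FreeGroup Bool →* FreeGroup Bool) (X : Finset (FreeGroup Bool)),
    Subgroup.closure (X : Set (FreeGroup Bool)) = ⊤ ∧ 0 < tcr X φ := by
  refine ⟨ψ, X, ?_, ?_⟩
  · rw [← FreeGroup.closure_range_of]
    congr 1
    ext x
    simp [X, eq_comm, or_comm]
  · have h0 : ∀ᶠ n : ℕ in atTop, (1 / 5 : ℝ) ≤ ((cls ψ '' ball X n).ncard : ℝ) / (ball X n).ncard ∧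
        ((cls ψ '' ball X n).ncard : ℝ) / (ball X n).ncard ≤ 1 := by
      rw [eventually_atTop]
      refine ⟨1, fun n hn => ?_⟩
      obtain ⟨n, rfl⟩ : ∃ m, n = m + 1 := ⟨n - 1, by omega⟩
      rw [ballX]
      have h1 : ((B n).ncard : ℝ) ≤ (cls ψ '' B (n + 1)).ncard := by exact_mod_cast C_ge n
      have h2 : ((cls ψ '' B (n + 1)).ncard : ℝ) ≤ (B (n + 1)).ncard := by
        exact_mod_cast Set.ncard_image_le (B_fin _)
      have h4 : ((B (n + 1)).ncard : ℝ) ≤ 5 * (B n).ncard := by exact_mod_cast B_five n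
      have h7 : (0 : ℝ) < (B (n + 1)).ncard := by exact_mod_cast B_pos _
      refine ⟨?_, ?_⟩
      · rw [le_div_iff₀ h7]; linarith
      · rw [div_le_one h7]; linarith
    exact lt_of_lt_of_le (by norm_num) (le_limsup_of_frequently_le
      (h0.mono fun n h => h.1).frequently ⟨1, h0.mono fun n h => h.2⟩)

end Pool.Agent.Results.MP_dff590_al.FreePos
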